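import Mathlib

/-!
# The ultrapower of the power set of `ω` need not be universal for posets of size continuum

For an ultrafilter `u` on `ω` let `∏_u (𝒫(ω), ⊆)` be the ultrapower, here the type
`(u : Filter ℕ).Germ (Set ℕ)` of germs with Mathlib's order (`[f] ≤ [g]` iff
`{n | f n ⊆ g n} ∈ u`).

If the ultrapower is universal for partially ordered sets of cardinality `2^ℵ₀`, then
`2^ℵ₀ < cf(2^μ)` for every `μ` with `2^ℵ₀ < 2^μ`. So it is not universal, for any `u`, if for instance
`2^ℵ₀ = ℵ₂` and `2^ℵ₁ = ℵ_{ω₂}`, which is consistent by Easton's theorem.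

Proof. Let `I` be a set of size `μ` and `Q` the ultrapower, which has size at most `2^ℵ₀`. A map
`A : I → Q` traces the family `T(A) = {{i | A i ≤ q} | q ∈ Q}` of at most `2^ℵ₀` subsets of `I`.
There are at most `2^μ` maps `A`, and since `2^μ` has cofinality at most `2^ℵ₀ < 2^μ`, a diagonal
argument gives a family `X` of at most `2^ℵ₀` subsets of `I` contained in no `T(A)`. The two
level poset on `I ∪ X` with `i ≤ x` iff `i ∈ x`, padded with isolated points, does not embed.
-/

set_option autoImplicit false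

open Cardinal Ordinal Filter

namespace Pool.Agent.Results.MP_6b029b_lc.NotUniversalH8

/-- The diagonal argument: `cf κ ≤ lam < κ`, at most `κ` sets of size at most `lam` in a set of
size `κ` do not catch all sets of size at most `lam`. -/
theorem exists_not_subset {S J : Type} {κ lam : Cardinal.{0}} (hκ : ℵ₀ ≤ κ) (hS : #S = κ)
    (hJ : #J ≤ κ) (hlam : lam < κ) (hcof : κ.ord.cof ≤ lam) (T : J → Set S)
    (hT : ∀ j, #(T j) ≤ lam) :
    ∃ X : Set S, #X ≤ lam ∧ ∀ j, ¬ X ⊆ T j := by
  classical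
  have hlam0 : ℵ₀ ≤ lam := by
    refine le_trans ?_ hcof
    rw [aleph0_le_cof_iff, one_lt_cof_iff]
    exact isSuccLimit_ord hκ
  -- an injection of `J` into the well order `κ`
  have hJ' : #J ≤ #(κ.ord.ToType) := by simpa using hJ
  obtain ⟨e⟩ : Nonempty (J ↪ κ.ord.ToType) := by
    rwa [Cardinal.le_def] at hJ'
  obtain ⟨C, hC, hCc⟩ := Order.exists_cof_eq (α := κ.ord.ToType)
  have hCc' : #C ≤ lam := by
    rw [hCc, cof_toType]
    exact hcof
  -- for each `c` a point outside the union of the sets with index at most `c`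
  have key : ∀ c : κ.ord.ToType, ∃ s : S, ∀ j, e j ≤ c → s ∉ T j := by
    intro c
    by_contra hcon
    push Not at hcon
    have hsub : (Set.univ : Set S) ⊆ ⋃ j : {j : J // e j ≤ c}, T j.1 := by
      intro s _
      obtain ⟨j, hj, hs⟩ := hcon s
      exact Set.mem_iUnion.2 ⟨⟨j, hj⟩, hs⟩
    have h1 : #{j : J // e j ≤ c} < κ := by
      have h2 : #{j : J // e j ≤ c} ≤ #(Set.Iic c) := by
        refine mk_le_of_injective (f := fun j => ⟨e j.1, j.2⟩) ?_
        intro a b hab
        apply Subtype.ext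
        exact e.injective (Subtype.ext_iff.1 hab)
      have h3 : #(Set.Iic c) ≤ #(Set.Iio c) + 1 := by
        rw [← Set.Iio_insert]
        exact mk_insert_le
      have h4 : #(Set.Iio c) < κ := by
        simpa using mk_Iio_lt c (by simp)
      exact (h2.trans h3).trans_lt (add_lt_of_lt hκ h4 (one_lt_aleph0.trans_le hκ))
    have h5 : κ ≤ #{j : J // e j ≤ c} * lam := by
      refine (hS.symm.trans (mk_univ (α := S)).symm).le.trans ?_
      refine (mk_le_mk_of_subset hsub).trans ?_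
      refine (mk_iUnion_le _).trans ?_
      gcongr
      exact ciSup_le' fun j => hT j.1
    have h6 : #{j : J // e j ≤ c} * lam < κ := mul_lt_of_lt hκ h1 hlam
    exact absurd (h5.trans_lt h6) (lt_irrefl _)
  choose f hf using key
  refine ⟨f '' C, mk_image_le.trans hCc', ?_⟩
  intro j hj
  obtain ⟨c, hc, hjc⟩ := hC (e j)
  exact hf c j hjc (hj ⟨c, hc, rfl⟩)

/-- the two level set on `A` and `B` -/
inductive Two (A B : Type) (R : A → B → Prop) : Type
  | low : A → Two A B R
  | high : B → Two A B R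

/-- the two level order given by a relation -/
inductive Two.Le {A B : Type} {R : A → B → Prop} : Two A B R → Two A B R → Prop
  | rfl (x : Two A B R) : Two.Le x x
  | step (i : A) (b : B) : R i b → Two.Le (Two.low i) (Two.high b)

instance (A B : Type) (R : A → B → Prop) : PartialOrder (Two A B R) where
  le := Two.Le
  le_refl := Two.Le.rfl
  le_trans x y z h1 h2 := by
    cases h1 with
    | rfl => exact h2
    | step i b h =>
      cases h2
      exact Two.Le.step i b h
  le_antisymm x y h1 h2 := by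
    cases h1 with
    | rfl => rfl
    | step i b h => cases h2

theorem two_le {A B : Type} {R : A → B → Prop} (i : A) (b : B) :
    (Two.low i : Two A B R) ≤ Two.high b ↔ R i b := by
  constructor
  · intro h
    cases h
    assumption
  · intro h
    exact Two.Le.step i b h

/-- the two level set as a disjoint union -/
def twoEquiv (A B : Type) (R : A → B → Prop) : Two A B R ≃ A ⊕ B where
  toFun x := match x with
    | .low i => Sum.inl i
    | .high b => Sum.inr b
  invFun x := match x with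
    | .inl i => .low i
    | .inr b => .high b
  left_inv x := by cases x <;> rfl
  right_inv x := by cases x <;> rfl

/-- No partially ordered set of size at most the continuum is universal. -/
theorem not_universal (Q : Type) [PartialOrder Q] (hQ : #Q ≤ 𝔠) (μ : Cardinal.{0})
    (h1 : ((2 : Cardinal.{0}) ^ μ).ord.cof ≤ 𝔠) (h2 : 𝔠 < (2 : Cardinal.{0}) ^ μ) :
    ∃ (P : Type) (_ : PartialOrder P), #P = 𝔠 ∧ IsEmpty (P ↪o Q) := by
  classical
  have hμ : ℵ₀ ≤ μ := by
    by_contra hcon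
    push Not at hcon
    have : (2 : Cardinal.{0}) ^ μ < ℵ₀ := power_lt_aleph0 (natCast_lt_aleph0 (n := 2)) hcon
    exact absurd (aleph0_le_continuum.trans_lt (h2.trans this)) (lt_irrefl _)
  have hμc : μ ≤ 𝔠 := (lt_cof_ord_power hμ one_lt_two).le.trans h1
  obtain ⟨I, hI⟩ : ∃ I : Type, #I = μ := ⟨μ.out, mk_out μ⟩
  have hS : #(Set I) = 2 ^ μ := by rw [mk_set, hI]
  have hJ : #(I → Q) ≤ 2 ^ μ := by
    rw [← Cardinal.power_def, hI]
    calc #Q ^ μ ≤ 𝔠 ^ μ := power_le_power_right hQ
      _ = 2 ^ μ := by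
        rw [← two_power_aleph0, ← power_mul, aleph0_mul_eq hμ]
  obtain ⟨X, hX, hXT⟩ := exists_not_subset (κ := 2 ^ μ) (lam := 𝔠)
    (hμ.trans (cantor μ).le) hS hJ h2 h1
    (fun A : I → Q => Set.range fun q : Q => {i : I | A i ≤ q})
    (fun A => mk_range_le.trans hQ)
  let R : I → (X ⊕ ℝ) → Prop := fun i b => ∃ x : X, b = Sum.inl x ∧ i ∈ x.1
  refine ⟨Two I (X ⊕ ℝ) R, inferInstance, ?_, ?_⟩
  · have h3 : #(Two I (X ⊕ ℝ) R) = #I + (#X + #ℝ) := by
      rw [mk_congr (twoEquiv I (X ⊕ ℝ) R), mk_sum, mk_sum]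
      simp
    rw [h3, hI, mk_real, add_eq_right aleph0_le_continuum hX,
      add_eq_right aleph0_le_continuum hμc]
  · refine ⟨fun f => hXT (fun i => f (Two.low i)) ?_⟩
    intro x hx
    refine ⟨f (Two.high (Sum.inl ⟨x, hx⟩)), ?_⟩
    ext i
    show f (Two.low i) ≤ f (Two.high (Sum.inl ⟨x, hx⟩)) ↔ i ∈ x
    rw [f.le_iff_le, two_le]
    constructor
    · rintro ⟨y, hy, hiy⟩
      cases hy
      exact hiy
    · intro hi
      exact ⟨⟨x, hx⟩, rfl, hi⟩

/-- the ultrapower of `𝒫(ω)` has size at most the continuum -/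
theorem mk_germ_le (u : Ultrafilter ℕ) : #((u : Filter ℕ).Germ (Set ℕ)) ≤ 𝔠 := by
  have h1 : #((u : Filter ℕ).Germ (Set ℕ)) ≤ #(ℕ → Set ℕ) := mk_quotient_le
  refine h1.trans (le_of_eq ?_)
  rw [← Cardinal.power_def, mk_set, mk_nat, two_power_aleph0, continuum_power_aleph0]

/-- If `cf(2^μ) ≤ 2^ℵ₀ < 2^μ` for some cardinal `μ`, then for every ultrafilter `u` on `ω` there is a
partially ordered set of cardinality `2^ℵ₀` with no order embedding into `∏_u (𝒫(ω), ⊆)`. -/
theorem exists_poset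
    (hμ : ∃ μ : Cardinal.{0}, ((2 : Cardinal.{0}) ^ μ).ord.cof ≤ 2 ^ ℵ₀ ∧
      (2 : Cardinal.{0}) ^ ℵ₀ < 2 ^ μ)
    (u : Ultrafilter ℕ) :
    ∃ (P : Type) (_ : PartialOrder P), #P = 2 ^ ℵ₀ ∧
      IsEmpty (P ↪o (u : Filter ℕ).Germ (Set ℕ)) := by
  obtain ⟨μ, h1, h2⟩ := hμ
  rw [two_power_aleph0] at h1 h2 ⊢
  exact not_universal _ (mk_germ_le u) μ h1 h2

/-- **Main result.** Let `u` be a non-principal ultrafilter on `ω`. If every partially ordered set of
cardinality `2^ℵ₀` has an order embedding into the ultrapower `∏_u (𝒫(ω), ⊆)`, then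
`2^ℵ₀ < cf(2^μ)` for every cardinal `μ` with `2^ℵ₀ < 2^μ`. -/
theorem result (u : Ultrafilter ℕ) (_hu : ∀ n : ℕ, ({n} : Set ℕ) ∉ u)
    (huniv : ∀ (P : Type) [PartialOrder P], #P = 2 ^ ℵ₀ →
      Nonempty (P ↪o (u : Filter ℕ).Germ (Set ℕ))) :
    ∀ μ : Cardinal.{0}, (2 : Cardinal.{0}) ^ ℵ₀ < 2 ^ μ →
      (2 : Cardinal.{0}) ^ ℵ₀ < ((2 : Cardinal.{0}) ^ μ).ord.cof := by
  intro μ h2
  by_contra h1
  obtain ⟨P, hP, hP1, hP2⟩ := exists_poset ⟨μ, not_lt.1 h1, h2⟩ u
  obtain ⟨f⟩ := huniv P hP1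
  exact hP2.false f

end Pool.Agent.Results.MP_6b029b_lc.NotUniversalH8
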